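import Pool.Agent.Lib_MP_8a48ad_gt.CIFinal

/-!
# MP_8a48ad_gt: thick generation when the ring of invariants is a complete intersection

`W` finite, `ρ : W → GL_n(ℤ)`, `|W| ≠ 0` in `k`, `S = k[x_1, …, x_n]` (degrees `2`), `R = S^W`. If `R` is a graded
complete intersection, `R = k[X_1, …, X_N]/(f_1, …, f_c)` with a regular sequence of homogeneous equations (no restriction on
`n`, on `c` or on the singular locus), then a DG `R`-module has finitely generated cohomology if and only if it lies in the
thick subcategory generated by `S`.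
-/

set_option autoImplicit false

theorem Pool.Agent.Results.MP_8a48ad_gt.CompleteIntersection.result.{u, v}
    {k : Type u} [Field k] {n : ℕ} {W : Type v} [Group W] [Finite W]
    (hW : (Nat.card W : k) ≠ 0) (ρ : W →* Matrix.GeneralLinearGroup (Fin n) ℤ)
    {R : Type u} [CommRing R] [Algebra k R] [Algebra R (MP8a.Sn k n)]
    [IsScalarTower k R (MP8a.Sn k n)] {GR : MP8a.Gr R} (hR : MP8a.InvRing k ρ GR)
    (hCI : MP8a.IsCI k GR) (M : MP8a.DGM GR) :
    MP8a.FG M ↔ MP8a.Thick hR.mod M :=
  MP8a.transfer (fun M => MP8a.main_CI (MP8a.setup_inv hW _) (MP8a.isCI_inv hR hCI) M) hR M
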