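import Pool.Agent.Lib_MP_8a48ad_gt.Final2
import Pool.Agent.Lib_MP_8a48ad_gt.Transfer

/-!
# MP_8a48ad_gt: thick generation when the stabilisers of the nonzero vectors are generated by reflections

`W` finite, `ρ : W → GL_n(ℤ)`, `|W| ≠ 0` in `k`, `S = k[x_1, …, x_n]` (degrees `2`), `R = S^W`. If the
stabiliser of every nonzero `v ∈ ℤ^n` is generated by elements which fix a hyperplane (for instance
`n ≤ 2`, or `W` acts freely on `ℤ^n ∖ 0`), then a DG `R`-module has finitely generated cohomology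
if and only if it lies in the thick subcategory generated by `S`.
-/

set_option autoImplicit false

theorem Pool.Agent.Results.MP_8a48ad_gt.IsolatedSingularities.result.{u, v}
    {k : Type u} [Field k] {n : ℕ} {W : Type v} [Group W] [Finite W]
    (hW : (Nat.card W : k) ≠ 0) (ρ : W →* Matrix.GeneralLinearGroup (Fin n) ℤ)
    (h : ∀ v : Fin n → ℤ, v ≠ 0 → ∀ w, (ρ w : Matrix (Fin n) (Fin n) ℤ).mulVec v = v →
      ρ w ∈ Subgroup.closure {g : Matrix.GeneralLinearGroup (Fin n) ℤ | ∃ s, g = ρ s ∧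
        (g : Matrix (Fin n) (Fin n) ℤ).mulVec v = v ∧
        ∃ a b : Fin n → ℤ, (g : Matrix (Fin n) (Fin n) ℤ) = 1 + Matrix.vecMulVec a b})
    {R : Type u} [CommRing R] [Algebra R (MP8a.Sn k n)] {GR : MP8a.Gr R}
    (hR : MP8a.InvRing k ρ GR) (M : MP8a.DGM GR) :
    MP8a.FG M ↔ MP8a.Thick hR.mod M :=
  MP8a.transfer (fun M => MP8a.main_refl hW ρ h M) hR M
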