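import Pool.Agent.Lib_MP_8a48ad_gt.R3Final
import Pool.Agent.Lib_MP_8a48ad_gt.Transfer

/-!
# MP_8a48ad_gt: thick generation for all groups of torus rank at most three

`W` finite, `ρ : W → GL_n(ℤ)` with `n ≤ 3`, `|W| ≠ 0` in `k`, `S = k[x_1, …, x_n]` (degrees `2`), `R = S^W`. A DG `R`-module has
finitely generated cohomology if and only if it lies in the thick subcategory generated by `S`. There is no hypothesis on the
singularities of `R` (for `n = 3` they need neither be isolated nor Gorenstein).
-/

set_option autoImplicit false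

theorem Pool.Agent.Results.MP_8a48ad_gt.RankThree.result.{u, v}
    {k : Type u} [Field k] {n : ℕ} (hn : n ≤ 3) {W : Type v} [Group W] [Finite W]
    (hW : (Nat.card W : k) ≠ 0) (ρ : W →* Matrix.GeneralLinearGroup (Fin n) ℤ)
    {R : Type u} [CommRing R] [Algebra R (MP8a.Sn k n)] {GR : MP8a.Gr R}
    (hR : MP8a.InvRing k ρ GR) (M : MP8a.DGM GR) :
    MP8a.FG M ↔ MP8a.Thick hR.mod M :=
  MP8a.transfer (fun M => MP8a.rank_le_three hn hW ρ M) hR M
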